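import Pool.Agent.Lib.MP_1bb70c_an.Final

/-!
# Spreading models in subspaces of the dual of `X^n_{0,1}`

For every `n ≥ 1`, every infinite-dimensional subspace `Y` of the dual of `X^n_{0,1}` admits a `c_0^k`
spreading model for each `k = 1, ..., n` and an `ℓ_1` spreading model.

The definitions are in the files `Pool/Agent/Lib/MP_1bb70c_an/Def.lean` (Schreier families, the norm
`nrm n` on finitely supported sequences) and `Pool/Agent/Lib/MP_1bb70c_an/Space.lean` (`V n` is `c_00`
with this norm, `X01 n` its completion, `XDual n` the dual, `SemiNormalized`, `GenC0 k`, `GenL1 k`,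
`AdmitsC0`, `AdmitsL1`). The norm is defined as the limit of the iterates of the right hand side `stepN n`
of the implicit equation; the first part of the theorem says that it satisfies the implicit equation of the
problem. The subspace `Y` is not assumed to be closed.
-/

set_option autoImplicit false

namespace Pool.Agent.Results.MP_1bb70c_an.SpreadingModels

open Pool.Agent.Lib.MP_1bb70c_an

/-- The norm of `X^n_{0,1}` satisfies the implicit equation, and every infinite-dimensional subspace of the
dual of `X^n_{0,1}` admits `c_0^k` spreading models, `1 ≤ k ≤ n`, and an `ℓ_1` spreading model. -/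
theorem result (n : ℕ) (hn : 1 ≤ n) :
    (∀ x : V n, ‖x‖ = stepN n (nrm n) x.seq) ∧
    ∀ Y : Submodule ℝ (XDual n), InfDim Y →
      (∀ k, 1 ≤ k → k ≤ n → AdmitsC0 Y k) ∧ AdmitsL1 Y 1 :=
  ⟨fun x => nrm_fix n x.seq, fun Y hY => main n hn Y hY⟩

end Pool.Agent.Results.MP_1bb70c_an.SpreadingModels
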